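import Pool.Agent.H.MP_7a870e_al.Over

set_option autoImplicit false
open FirstOrder FirstOrder.Language FirstOrder.Language.Structure Filter CategoryTheory

namespace Pool.Agent.H.MP_7a870e_al

universe w

structure Enc (σ : FirstOrder.Language.{0, 0}) where
  N : ℕ
  dF : ℕ → σ.Term (Fin (N + 1))
  dR : ℕ → σ.Formula (Fin (N + 1))
  atom : ∀ t, (dR t).IsAtomic
  fn : ∀ n (g : σ.Functions n), ∃ (t : ℕ) (ρ : Fin n → Fin (N + 1)), Function.Injective ρ ∧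
    dF t = Term.func g fun k => Term.var (ρ k)
  rel : ∀ n (R : σ.Relations n), ∃ (t : ℕ) (ρ : Fin n → Fin (N + 1)), Function.Injective ρ ∧
    dR t = R.formula fun k => Term.var (ρ k)

variable {σ : FirstOrder.Language.{0, 0}}

lemma exists_enc [Finite σ.Symbols] : Nonempty (Enc σ) := by
  obtain ⟨N, hN⟩ := (Set.finite_range
    (Sum.elim Sigma.fst Sigma.fst : σ.Symbols → ℕ)).bddAbove
  have h1 : ∀ s : Σ n, σ.Functions n, s.1 ≤ N + 1 := fun s =>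
    (hN ⟨Sum.inl s, rfl⟩).trans (Nat.le_succ _)
  have h2 : ∀ s : Σ n, σ.Relations n, s.1 ≤ N + 1 := fun s =>
    (hN ⟨Sum.inr s, rfl⟩).trans (Nat.le_succ _)
  obtain ⟨d, hd⟩ := exists_surjective_nat (Option σ.Symbols)
  refine ⟨⟨N, fun t => match d t with
      | some (Sum.inl s) => Term.func s.2 fun k => Term.var (Fin.castLE (h1 s) k)
      | _ => Term.var 0,
    fun t => match d t with
      | some (Sum.inr s) => s.2.formula fun k => Term.var (Fin.castLE (h2 s) k)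
      | _ => Term.equal (Term.var 0) (Term.var 0), fun t => ?_, fun n g => ?_, fun n R => ?_⟩⟩
  · split
    · exact BoundedFormula.IsAtomic.rel _ _
    · exact BoundedFormula.IsAtomic.equal _ _
  · obtain ⟨t, ht⟩ := hd (some (Sum.inl ⟨n, g⟩))
    exact ⟨t, _, Fin.castLE_injective (h1 ⟨n, g⟩), by simp only [ht]⟩
  · obtain ⟨t, ht⟩ := hd (some (Sum.inr ⟨n, R⟩))
    exact ⟨t, _, Fin.castLE_injective (h2 ⟨n, R⟩), by simp only [ht]⟩

variable (E : Enc σ)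

structure Over1 {C A : Type} [τ.Structure C] [σ.Structure A] (co : C → Fin (E.N + 1) → A)
    (tu : ℕ → (Fin (E.N + 1) → A) → C) (η : C → A) : Prop extends Over0 co tu η where
  η_tu : ∀ t a, η (tu t a) = (E.dF t).realize a
  P_tu : ∀ t a, PP (tu t a) ↔ (E.dR t).Realize a

def Over (C A : Type) [τ.Structure C] [σ.Structure A] : Prop :=
  ∃ (co : C → Fin (E.N + 1) → A) (tu : ℕ → (Fin (E.N + 1) → A) → C) (η : C → A), Over1 E co tu η

variable {E}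

section
variable {I : Type w} {𝓕 : Filter I} {C : Type} [τ.Structure C]
    {D : I → Type} [∀ i, τ.Structure (D i)] {f : ∀ i, C → D i} {B : I → Type}
    [∀ i, σ.Structure (B i)]

lemma lemK2 (hf : AE τ 𝓕 f) (hD : ∀ i, Over E (D i) (B i)) {A : Type} [σ.Structure A]
    {co : C → Fin (E.N + 1) → A} {tu : ℕ → (Fin (E.N + 1) → A) → C} {η : C → A}
    (hC : Over0 co tu η)
    (h1 : ∀ n (g : σ.Functions n) (x : Fin n → A), ∃ t ρ a,
      E.dF t = Term.func g (fun k => Term.var (ρ k)) ∧ a ∘ ρ = x ∧ funMap g x = η (tu t a))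
    (h2 : ∀ n (R : σ.Relations n) (x : Fin n → A), ∃ t ρ a,
      E.dR t = R.formula (fun k => Term.var (ρ k)) ∧ a ∘ ρ = x ∧ (RelMap R x ↔ PP (tu t a))) :
    Over1 E co tu η ∧ ∃ ι : ∀ i, A → B i, AE σ 𝓕 ι := by
  choose co' tu' η' hD using hD
  obtain ⟨ι, k1, k2, k3⟩ := lemK hf (fun i => (hD i).toOver0) hC
  have a1 : ∀ t a, ∀ᶠ i in 𝓕, ι i (η (tu t a)) = (E.dF t).realize (ι i ∘ a) := fun t a => by
    filter_upwards [k1 t a, k2 (tu t a)] with i e1 e2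
    rw [← e2, e1, (hD i).η_tu]
  have a2 : ∀ t a, PP (tu t a) ↔ ∀ᶠ i in 𝓕, (E.dR t).Realize (ι i ∘ a) := fun t a => by
    rw [hf.P]
    refine eventually_congr ?_
    filter_upwards [k1 t a] with i e1
    rw [e1, (hD i).P_tu]
  have hι : AE σ 𝓕 ι := by
    refine ⟨fun n g x => ?_, k3, fun n R x => ?_⟩
    · obtain ⟨t, ρ, a, e1, rfl, e3⟩ := h1 n g x
      filter_upwards [a1 t a] with i e
      rw [e3, e, e1]
      rfl
    · obtain ⟨t, ρ, a, e1, rfl, e3⟩ := h2 n R x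
      rw [e3, a2, e1]
      simp [Function.comp_def]
  refine ⟨⟨hC, fun t a => k3 _ _ ?_, fun t a => ?_⟩, ι, hι⟩
  · filter_upwards [a1 t a, hι.term (E.dF t) a] with i e1 e2
    rw [e1, e2]
  · rw [a2, hι.atom (E.atom t)]

lemma lemK3 (hf : AE τ 𝓕 f) (hD : ∀ i, Over E (D i) (B i)) {A : Type} [σ.Structure A]
    [Nonempty A] (hC : Over E C A) : ∃ ι : ∀ i, A → B i, AE σ 𝓕 ι := by
  obtain ⟨co, tu, η, hC⟩ := hC
  refine (lemK2 hf hD hC.toOver0 (fun n g x => ?_) fun n R x => ?_).2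
  · obtain ⟨t, ρ, h1, h2⟩ := E.fn n g
    refine ⟨t, ρ, Function.extend ρ x fun _ => Classical.arbitrary A, h2, Function.extend_comp h1 _ _, ?_⟩
    rw [hC.η_tu, h2]
    simp [h1.extend_apply]
  · obtain ⟨t, ρ, h1, h2⟩ := E.rel n R
    refine ⟨t, ρ, Function.extend ρ x fun _ => Classical.arbitrary A, h2, Function.extend_comp h1 _ _, ?_⟩
    rw [hC.P_tu, h2]
    simp [h1.extend_apply]

lemma lemE2 [𝓕.NeBot] [Nonempty C] (hf : AE τ 𝓕 f) (hD : ∀ i, Over E (D i) (B i)) :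
    ∃ A : Bundled.{0} σ.Structure, Nonempty A ∧ Over E C A := by
  have hD' := hD
  choose co' tu' η' hD' using hD'
  obtain ⟨A, co, tu, η, hC⟩ := lemE hf fun i => (hD' i).toOver0
  haveI : Nonempty A := ⟨η (Classical.arbitrary C)⟩
  choose tF ρF f1 f2 using E.fn
  choose tR ρR r1 r2 using E.rel
  letI : σ.Structure A :=
    ⟨fun g x => η (tu (tF _ g) (Function.extend (ρF _ g) x fun _ => Classical.arbitrary A)),
      fun R x => PP (tu (tR _ R) (Function.extend (ρR _ R) x fun _ => Classical.arbitrary A))⟩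
  exact ⟨⟨A, inferInstance⟩, inferInstance, co, tu, η, (lemK2 hf hD hC
    (fun n g x => ⟨_, _, _, f2 n g, Function.extend_comp (f1 n g) _ _, rfl⟩)
    fun n R x => ⟨_, _, _, r2 n R, Function.extend_comp (r1 n R) _ _, Iff.rfl⟩).1⟩

end

variable (E) in
def Ext (J A : Type) := J ⊕ (ℕ × (Fin (E.N + 1) → A))

section
variable {J A : Type} [σ.Structure A] (coJ : J → Fin (E.N + 1) → A) (ηJ : J → A)
  (uJ : J → Ext E J A) (PJ : J → Prop)

def eco : Ext E J A → Fin (E.N + 1) → A := Sum.elim coJ Prod.snd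
def eη : Ext E J A → A := Sum.elim ηJ fun x => (E.dF x.1).realize x.2

@[reducible] def estr : τ.Structure (Ext E J A) where
  funMap g := match g with
    | TF.tl => fun x => Sum.inr (0, fun k => eco coJ (x 0) (k + 1))
    | TF.u => fun x => Sum.elim uJ (fun y => Sum.inr (y.1 + 1, y.2)) (x 0)
    | TF.h => fun x => Sum.inr (0, fun _ => eη ηJ (x 0))
    | TF.p => fun x => Sum.inr (0, push (eco coJ (x 0) 0) (eco coJ (x 1)))
  RelMap R := match R with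
    | TR.P => fun x => Sum.elim PJ (fun y => (E.dR y.1).Realize y.2) (x 0)

lemma eover : @Over1 σ E _ _ (estr coJ ηJ uJ PJ) _ (eco coJ) (fun t a => Sum.inr (t, a)) (eη ηJ) :=
  letI := estr coJ ηJ uJ PJ
  ⟨⟨fun _ _ => rfl, fun _ _ _ _ h => (Prod.mk.inj (Sum.inr.inj h)).1, fun _ _ => rfl,
    fun _ _ => rfl, fun _ => rfl, fun _ => rfl⟩, fun _ _ => rfl, fun _ _ => Iff.rfl⟩

end

lemma lemF (A : Bundled.{0} σ.Structure) (hA : Nonempty A) :
    ∃ C : Bundled.{0} τ.Structure, Nonempty C ∧ Over E C A :=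
  ⟨⟨Ext E Empty A, estr Empty.elim Empty.elim Empty.elim Empty.elim⟩,
    ⟨Sum.inr (0, fun _ => hA.some)⟩, _, _, _, eover _ _ _ _⟩

lemma lemL {I : Type w} {𝓕 : Filter I} [𝓕.NeBot] {C A : Type} [τ.Structure C] [σ.Structure A]
    (hC : Over E C A) {B : I → Type} [∀ i, σ.Structure (B i)] {f : ∀ i, A → B i}
    (hf : AE σ 𝓕 f) : ∃ (D : I → Bundled.{0} τ.Structure) (φ : ∀ i, C → D i),
      (∀ i, Over E (D i) (B i)) ∧ AE τ 𝓕 φ := by
  classical
  obtain ⟨co, tu, η, hC⟩ := hC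
  let J := {c : C // ¬ ∃ t a, c = tu t a}
  let φ : ∀ i, C → Ext E J (B i) := fun i c =>
    if h : ∃ t a, c = tu t a then Sum.inr (h.choose, f i ∘ co c) else Sum.inl ⟨c, h⟩
  have φ1 : ∀ i t a, φ i (tu t a) = Sum.inr (t, f i ∘ a) := by
    intro i t a
    have h : ∃ t' a', tu t a = tu t' a' := ⟨t, a, rfl⟩
    simp only [φ, dif_pos h, hC.co_tu]
    rw [← hC.tag _ _ _ _ h.choose_spec.choose_spec]
  have φ2 : ∀ i (j : J), φ i j.1 = Sum.inl j := fun i j => dif_neg j.2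
  have cs : ∀ c, (∃ t a, c = tu t a) ∨ ∃ j : J, c = j.1 := fun c =>
    (em _).imp id fun h => ⟨⟨c, h⟩, rfl⟩
  letI S : ∀ i, τ.Structure (Ext E J (B i)) := fun i =>
    estr (fun j => f i ∘ co j.1) (fun j => f i (η j.1)) (fun j => φ i (U j.1)) fun j => PP j.1
  have O : ∀ i, Over1 E (eco fun j : J => f i ∘ co j.1) (fun t a => Sum.inr (t, a))
    (eη fun j => f i (η j.1)) := fun i => eover _ _ _ _
  have c1 : ∀ i c, eco (fun j : J => f i ∘ co j.1) (φ i c) = f i ∘ co c := by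
    intro i c
    rcases cs c with ⟨t, a, rfl⟩ | ⟨j, rfl⟩
    · rw [φ1, hC.co_tu]; rfl
    · rw [φ2]; rfl
  refine ⟨fun i => ⟨Ext E J (B i), S i⟩, φ, fun i => ⟨_, _, _, O i⟩, AE.mk' (fun c => ?_)
    (fun c => ?_) (fun c => ?_) (fun c c' => ?_) (fun c c' h => ?_) fun c => ?_⟩
  · refine Eventually.of_forall fun i => ?_
    rw [hC.tl_eq, φ1, (O i).tl_eq, c1]; rfl
  · refine Eventually.of_forall fun i => ?_
    rcases cs c with ⟨t, a, rfl⟩ | ⟨j, rfl⟩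
    · rw [hC.u_tu, φ1, φ1]; rfl
    · rw [φ2]; rfl
  · have : ∀ᶠ i in 𝓕, eη (fun j : J => f i (η j.1)) (φ i c) = f i (η c) := by
      rcases cs c with ⟨t, a, rfl⟩ | ⟨j, rfl⟩
      · filter_upwards [hf.term (E.dF t) a] with i e
        rw [φ1, hC.η_tu, e]; rfl
      · refine Eventually.of_forall fun i => ?_
        rw [φ2]; rfl
    filter_upwards [this] with i e
    rw [hC.h_eq, φ1, (O i).h_eq, e]; rfl
  · refine Eventually.of_forall fun i => ?_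
    rw [hC.p_eq, φ1, (O i).p_eq, c1, c1, push_comp]; rfl
  · obtain ⟨i, hi⟩ := h.exists
    rcases cs c with ⟨t, a, rfl⟩ | ⟨j, rfl⟩ <;> rcases cs c' with ⟨t', a', rfl⟩ | ⟨j', rfl⟩
    · rw [φ1, φ1] at hi
      obtain rfl := (Prod.mk.inj (Sum.inr.inj hi)).1
      refine congrArg _ (funext fun k => hf.inj _ _ (h.mono fun i hi => ?_))
      rw [φ1, φ1] at hi
      exact congrFun (Prod.mk.inj (Sum.inr.inj hi)).2 k
    · rw [φ1, φ2] at hi; cases hi
    · rw [φ1, φ2] at hi; cases hi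
    · rw [φ2, φ2] at hi
      exact congrArg _ (Sum.inl.inj hi)
  · rcases cs c with ⟨t, a, rfl⟩ | ⟨j, rfl⟩
    · rw [hC.P_tu, hf.atom (E.atom t)]
      simp only [φ1]; rfl
    · simp only [φ2]
      exact eventually_const.symm

def Triv (L : FirstOrder.Language.{0, 0}) (C : Type) [L.Structure C] : Prop :=
  Subsingleton C ∧ ∀ n (R : L.Relations n) (x : Fin n → C), RelMap R x

lemma Cl.triv {L : FirstOrder.Language.{0, 0}} {K : Set (Bundled.{0} L.Structure)} (h : Cl L K)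
    (A : Bundled.{0} L.Structure) (hA : Nonempty A) (ht : Triv L A) : A ∈ K :=
  h.2 PEmpty ⊥ A PEmpty.elim (fun i => i.elim) hA (fun i => i.elim)
    ⟨fun _ _ _ => eventually_bot, fun a b _ => ht.1.elim a b, fun n R x =>
      ⟨fun _ => eventually_bot, fun _ => ht.2 n R x⟩⟩

lemma AE.triv {L : FirstOrder.Language.{0, 0}} {I : Type w} {𝓕 : Filter I} {A : Type}
    [L.Structure A] {B : I → Type} [∀ i, L.Structure (B i)] {f : ∀ i, A → B i} (h : AE L 𝓕 f)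
    (ht : ∀ᶠ i in 𝓕, Triv L (B i)) : Triv L A :=
  ⟨⟨fun a b => h.inj a b (ht.mono fun _ hi => hi.1.elim _ _)⟩, fun n R x =>
    (h.rel n R x).2 (ht.mono fun _ hi => hi.2 n R _)⟩

lemma AE.sub {L : FirstOrder.Language.{0, 0}} {I : Type w} {𝓕 : Filter I} {A : Type}
    [L.Structure A] {B : I → Type} [∀ i, L.Structure (B i)] {f : ∀ i, A → B i} (h : AE L 𝓕 f) :
    AE L (𝓕.comap (Subtype.val : {i // ¬ Triv L (B i)} → I)) fun i => f i.1 := by
  have key : ∀ p : I → Prop, (∀ i, Triv L (B i) → p i) →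
      ((∀ᶠ i in 𝓕.comap (Subtype.val : {i // ¬ Triv L (B i)} → I), p i.1) ↔ ∀ᶠ i in 𝓕, p i) := by
    intro p hp
    rw [eventually_comap]
    refine eventually_congr (Eventually.of_forall fun i => ⟨fun h => ?_, fun h j e => e ▸ h⟩)
    by_cases hi : Triv L (B i)
    · exact hp i hi
    · exact h ⟨i, hi⟩ rfl
  exact ⟨fun n g x => (key _ fun i hi => hi.1.elim _ _).2 (h.fn n g x),
    fun a b e => h.inj a b ((key _ fun i hi => hi.1.elim _ _).1 e),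
    fun n R x => (h.rel n R x).trans (key _ fun i hi => hi.2 n R _).symm⟩

lemma AE.refl {L : FirstOrder.Language.{0, 0}} (A : Type) [L.Structure A] :
    AE L (⊤ : Filter PUnit.{2}) (B := fun _ => A) fun _ => id :=
  ⟨fun _ _ _ => Eventually.of_forall fun _ => rfl, fun _ _ h => eventually_const.1 h,
    fun _ _ _ => eventually_const.symm⟩

lemma Over.not_triv {C A : Type} [τ.Structure C] [σ.Structure A] [Nonempty A] (h : Over E C A) :
    ¬ Triv τ C := fun ht => by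
  obtain ⟨co, tu, η, h⟩ := h
  exact zero_ne_one (h.tag 0 1 (fun _ => Classical.arbitrary A) (fun _ => Classical.arbitrary A)
    (ht.1.elim _ _))

lemma Cl.over {M : Set (Bundled.{0} σ.Structure)} (hM : Cl σ M) {C : Type} [τ.Structure C]
    {A A' : Bundled.{0} σ.Structure} (h : Over E C A) (h' : Over E C A') (hA : Nonempty A)
    (hA' : A' ∈ M) : A ∈ M := by
  obtain ⟨ι, hι⟩ := lemK3 (AE.refl C) (B := fun _ => A') (fun _ => h') h
  exact hM.2 _ _ A (fun _ => A') ι hA (fun _ => hA') hι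

variable (E) in
def Φ (M : Set (Bundled.{0} σ.Structure)) : Set (Bundled.{0} τ.Structure) :=
  {C | Nonempty C ∧ (Triv τ C ∨ ∃ A ∈ M, Over E C A)}

lemma Φ_cl {M : Set (Bundled.{0} σ.Structure)} (hM : Cl σ M) : Cl τ (Φ E M) := by
  refine ⟨fun C hC => hC.1, fun I 𝓕 C D f hC hD hf => ⟨hC, ?_⟩⟩
  rcases (𝓕.comap (Subtype.val : {i // ¬ Triv τ (D i)} → I)).eq_or_neBot with h | h
  · exact Or.inl (hf.sub.triv (h ▸ eventually_bot))
  · choose B h1 h2 using fun i : {i // ¬ Triv τ (D i)} => (hD i.1).2.resolve_left i.2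
    obtain ⟨A, hA, h3⟩ := lemE2 hf.sub h2
    obtain ⟨ι, hι⟩ := lemK3 hf.sub h2 h3
    exact Or.inr ⟨A, hM.2 _ _ A B ι hA h1 hι, h3⟩

lemma Φ_le {M M' : Set (Bundled.{0} σ.Structure)} (hM : Cl σ M) (hM' : Cl σ M') :
    Φ E M ⊆ Φ E M' ↔ M ⊆ M' := by
  refine ⟨fun h A hA => ?_, fun h C hC => ⟨hC.1, hC.2.imp id fun ⟨A, h1, h2⟩ => ⟨A, h h1, h2⟩⟩⟩
  haveI := hM.1 A hA
  obtain ⟨C, h1, h2⟩ := lemF (E := E) A this
  obtain ⟨A', h3, h4⟩ := (h ⟨h1, Or.inr ⟨A, hA, h2⟩⟩).2.resolve_left h2.not_triv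
  exact hM'.over h2 h4 this h3

lemma Φ_inf {M M' : Set (Bundled.{0} σ.Structure)} (hM : Cl σ M) (hM' : Cl σ M') :
    Φ E M ∩ Φ E M' ⊆ Φ E (M ∩ M') := by
  rintro C ⟨⟨h0, h | ⟨A, h1, h2⟩⟩, -, h' | ⟨A', h3, h4⟩⟩
  · exact ⟨h0, Or.inl h⟩
  · exact ⟨h0, Or.inl h⟩
  · exact ⟨h0, Or.inl h'⟩
  · exact ⟨h0, Or.inr ⟨A, ⟨h1, hM'.over h2 h4 (hM.1 A h1) h3⟩, h2⟩⟩

lemma Φ_sup {M : Set (Bundled.{0} σ.Structure)} (hM : Cl σ M)
    {K : Set (Bundled.{0} τ.Structure)} (hK : Cl τ K) (h : Φ E M ⊆ K) :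
    ∃ M', Cl σ M' ∧ ∀ M'', Cl σ M'' → (Φ E M'' ⊆ K ↔ M'' ⊆ M') := by
  refine ⟨{A | Nonempty A ∧ ∀ C : Bundled.{0} τ.Structure, Nonempty C → Over E C A → C ∈ K},
    ⟨fun A hA => hA.1, fun I 𝓕 A B f hA hB hf => ⟨hA, fun C h1 h2 => ?_⟩⟩, fun M'' hM'' =>
    ⟨fun h' A hA => ⟨hM''.1 A hA, fun C h1 h2 => h' ⟨h1, Or.inr ⟨A, hA, h2⟩⟩⟩, ?_⟩⟩
  · rcases 𝓕.eq_or_neBot with h0 | h0
    · exact h ⟨h1, Or.inr ⟨A, hM.triv A hA (hf.triv (h0 ▸ eventually_bot)), h2⟩⟩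
    · obtain ⟨D, φ, h3, h4⟩ := lemL h2 hf
      exact hK.2 I 𝓕 C D φ h1 (fun i => (hB i).2 _ ⟨φ i h1.some⟩ (h3 i)) h4
  · rintro h' C ⟨h1, h2 | ⟨A, h2, h3⟩⟩
    · exact hK.triv C h1 h2
    · exact (h' h2).2 C h1 h3

lemma Cl.inter {L : FirstOrder.Language.{0, 0}} {K K' : Set (Bundled.{0} L.Structure)}
    (h : Cl L K) (h' : Cl L K') : Cl L (K ∩ K') :=
  ⟨fun A hA => h.1 A hA.1, fun I 𝓕 A B f hA hB hf =>
    ⟨h.2 I 𝓕 A B f hA (fun i => (hB i).1) hf, h'.2 I 𝓕 A B f hA (fun i => (hB i).2) hf⟩⟩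

end Pool.Agent.H.MP_7a870e_al
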