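import Mathlib

set_option autoImplicit false
open FirstOrder FirstOrder.Language FirstOrder.Language.Structure Filter CategoryTheory

namespace Pool.Agent.H.MP_7a870e_al

universe w

structure AE (L : FirstOrder.Language.{0, 0}) {I : Type w} (𝓕 : Filter I) {A : Type} [L.Structure A]
    {B : I → Type} [∀ i, L.Structure (B i)] (f : ∀ i, A → B i) : Prop where
  fn : ∀ n (g : L.Functions n) (x : Fin n → A), ∀ᶠ i in 𝓕, f i (funMap g x) = funMap g (f i ∘ x)
  inj : ∀ a b, (∀ᶠ i in 𝓕, f i a = f i b) → a = b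
  rel : ∀ n (R : L.Relations n) (x : Fin n → A), RelMap R x ↔ ∀ᶠ i in 𝓕, RelMap R (f i ∘ x)

section
variable {L : FirstOrder.Language.{0, 0}} {I : Type w} {𝓕 : Filter I} {A : Type} [L.Structure A]
    {B : I → Type} [∀ i, L.Structure (B i)] {f : ∀ i, A → B i}

lemma AE.term (h : AE L 𝓕 f) {V : Type} (t : L.Term V) (v : V → A) :
    ∀ᶠ i in 𝓕, f i (t.realize v) = t.realize (f i ∘ v) := by
  induction t with
  | var => exact Eventually.of_forall fun _ => rfl
  | func g ts ih =>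
    filter_upwards [eventually_all.2 ih, h.fn _ g fun k => (ts k).realize v] with i h1 h2
    simp only [Term.realize_func, h2]
    exact congrArg _ (funext h1)

lemma AE.atom (h : AE L 𝓕 f) {V : Type} {φ : L.Formula V} (hφ : φ.IsAtomic) (v : V → A) :
    φ.Realize v ↔ ∀ᶠ i in 𝓕, φ.Realize (f i ∘ v) := by
  have e : ∀ i, f i ∘ Sum.elim v (default : Fin 0 → A) = Sum.elim (f i ∘ v) default := fun i => by
    ext (x | x)
    · rfl
    · exact x.elim0
  cases hφ with
  | equal t₁ t₂ =>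
    simp only [Formula.Realize, BoundedFormula.realize_bdEqual, ← e]
    constructor
    · intro h0
      filter_upwards [h.term t₁ (Sum.elim v default), h.term t₂ (Sum.elim v default)] with i h1 h2
      rw [← h1, ← h2, h0]
    · intro h0
      refine h.inj _ _ ?_
      filter_upwards [h0, h.term t₁ (Sum.elim v default), h.term t₂ (Sum.elim v default)]
        with i h0 h1 h2
      rw [h1, h2, h0]
  | rel R ts =>
    simp only [Formula.Realize, BoundedFormula.realize_rel, ← e]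
    rw [h.rel]
    refine eventually_congr ?_
    filter_upwards [eventually_all.2 fun k => h.term (ts k) (Sum.elim v default)] with i h1
    rw [← funext h1]
    rfl

end

def QV (L : FirstOrder.Language.{0, 0}) (K : Set (Bundled.{0} L.Structure)) : Prop :=
  ∃ T : Set (List (L.Formula ℕ) × L.Formula ℕ),
    (∀ q ∈ T, (∀ φ ∈ q.1, φ.IsAtomic) ∧ q.2.IsAtomic) ∧
    K = {A : Bundled.{0} L.Structure | Nonempty A ∧ ∀ q ∈ T, ∀ v : ℕ → A, (∀ φ ∈ q.1, φ.Realize v) → q.2.Realize v}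

def Cl (L : FirstOrder.Language.{0, 0}) (K : Set (Bundled.{0} L.Structure)) : Prop :=
  (∀ A ∈ K, Nonempty A) ∧ ∀ (I : Type 1) (𝓕 : Filter I) (A : Bundled.{0} L.Structure)
    (B : I → Bundled.{0} L.Structure) (f : ∀ i, A → B i),
    Nonempty A → (∀ i, B i ∈ K) → AE L 𝓕 f → A ∈ K

lemma QV.cl {L : FirstOrder.Language.{0, 0}} {K : Set (Bundled.{0} L.Structure)} (h : QV L K) : Cl L K := by
  obtain ⟨T, hT, rfl⟩ := h
  refine ⟨fun A hA => hA.1, fun I 𝓕 A B f hA hB hf => ⟨hA, fun q hq v hv => ?_⟩⟩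
  rw [hf.atom (hT q hq).2]
  have : ∀ᶠ i in 𝓕, ∀ φ ∈ {φ | φ ∈ q.1}, φ.Realize (f i ∘ v) :=
    (eventually_all_finite (List.finite_toSet _)).2 fun φ hφ =>
      (hf.atom ((hT q hq).1 φ hφ) v).1 (hv φ hφ)
  filter_upwards [this] with i hi using (hB i).2 q hq _ hi

lemma term_supp {L : FirstOrder.Language.{0, 0}} {V A : Type} [L.Structure A] (t : L.Term (V ⊕ Fin 0)) :
    ∃ S : Set V, S.Finite ∧ ∀ v w : V → A, (∀ a ∈ S, v a = w a) →
      t.realize (Sum.elim v default) = t.realize (Sum.elim w default) := by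
  induction t with
  | var x =>
    rcases x with x | x
    · exact ⟨{x}, Set.finite_singleton _, fun v w h => h x rfl⟩
    · exact x.elim0
  | func g ts ih =>
    choose S h1 h2 using ih
    exact ⟨⋃ k, S k, Set.finite_iUnion h1, fun v w h => congrArg _ (funext fun k =>
      h2 k v w fun a ha => h a (Set.mem_iUnion.2 ⟨k, ha⟩))⟩

lemma atom_supp {L : FirstOrder.Language.{0, 0}} {V A : Type} [L.Structure A] {φ : L.Formula V}
    (hφ : φ.IsAtomic) : ∃ S : Set V, S.Finite ∧ ∀ v w : V → A, (∀ a ∈ S, v a = w a) →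
      (φ.Realize v ↔ φ.Realize w) := by
  cases hφ with
  | equal t₁ t₂ =>
    obtain ⟨S, a1, a2⟩ := term_supp (A := A) t₁
    obtain ⟨S', b1, b2⟩ := term_supp (A := A) t₂
    refine ⟨S ∪ S', a1.union b1, fun v w h => ?_⟩
    simp only [Formula.Realize, BoundedFormula.realize_bdEqual]
    rw [a2 v w fun a ha => h a (Or.inl ha), b2 v w fun a ha => h a (Or.inr ha)]
  | rel R ts =>
    choose S h1 h2 using fun k => term_supp (A := A) (ts k)
    refine ⟨⋃ k, S k, Set.finite_iUnion h1, fun v w h => ?_⟩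
    simp only [Formula.Realize, BoundedFormula.realize_rel]
    rw [funext fun k => h2 k v w fun a ha => h a (Set.mem_iUnion.2 ⟨k, ha⟩)]

lemma Cl.qv {L : FirstOrder.Language.{0, 0}} {K : Set (Bundled.{0} L.Structure)} (h : Cl L K) : QV L K := by
  classical
  refine ⟨{q | ((∀ φ ∈ q.1, φ.IsAtomic) ∧ q.2.IsAtomic) ∧ ∀ B ∈ K, ∀ v : ℕ → B,
    (∀ φ ∈ q.1, φ.Realize v) → q.2.Realize v}, fun q hq => hq.1, ?_⟩
  ext A
  refine ⟨fun hA => ⟨h.1 A hA, fun q hq => hq.2 A hA⟩, fun ⟨hne, hA⟩ => ?_⟩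
  let I : Type 1 := Σ B : K, (A → B.1)
  let 𝓕 : Filter I :=
    { sets := {U | ∃ Δ : List (L.Formula A), (∀ φ ∈ Δ, φ.IsAtomic ∧ φ.Realize id) ∧
        ∀ i : I, (∀ φ ∈ Δ, φ.Realize i.2) → i ∈ U}
      univ_sets := ⟨[], by simp, fun _ _ => trivial⟩
      sets_of_superset := fun ⟨Δ, h1, h2⟩ hs => ⟨Δ, h1, fun i hi => hs (h2 i hi)⟩
      inter_sets := fun ⟨Δ, h1, h2⟩ ⟨Δ', h3, h4⟩ => ⟨Δ ++ Δ', fun φ hφ =>
        (List.mem_append.1 hφ).elim (h1 φ) (h3 φ), fun i hi =>
          ⟨h2 i fun φ hφ => hi φ (List.mem_append_left _ hφ),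
            h4 i fun φ hφ => hi φ (List.mem_append_right _ hφ)⟩⟩ }
  have key : ∀ α : L.Formula A, α.IsAtomic → (α.Realize id ↔ ∀ᶠ i in 𝓕, α.Realize i.2) := by
    intro α hα
    refine ⟨fun h0 => ⟨[α], by simp [hα, h0], fun i hi => hi α (by simp)⟩, fun ⟨Δ, h1, h2⟩ => ?_⟩
    choose! S s1 s2 using fun (φ : L.Formula A) (hφ : φ.IsAtomic) => atom_supp (A := A) hφ
    have fin : (⋃ φ ∈ {φ | φ ∈ α :: Δ}, S φ).Finite := (List.finite_toSet _).biUnion fun φ hφ =>
      s1 φ ((List.mem_cons.1 hφ).elim (fun e => e ▸ hα) fun e => (h1 φ e).1)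
    obtain ⟨c, hc⟩ := Set.countable_iff_exists_injOn.1 fin.countable
    obtain ⟨d, hd⟩ : ∃ d : ℕ → A, ∀ a ∈ ⋃ φ ∈ {φ | φ ∈ α :: Δ}, S φ, d (c a) = a :=
      ⟨_, hc.leftInvOn_invFunOn⟩
    have := hA (Δ.map (Formula.relabel c), α.relabel c) ⟨⟨?_, hα.relabel _⟩, ?_⟩ d ?_
    · rw [Formula.realize_relabel] at this
      exact (s2 α hα _ _ fun a ha => hd a (Set.mem_biUnion (by simp) ha)).1 this
    · intro φ hφ
      obtain ⟨ψ, hψ, rfl⟩ := List.mem_map.1 hφ
      exact (h1 ψ hψ).1.relabel _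
    · intro B hB v hv
      rw [Formula.realize_relabel]
      exact h2 ⟨⟨B, hB⟩, v ∘ c⟩ fun φ hφ =>
        (Formula.realize_relabel (g := c) (v := v)).1 (hv _ (List.mem_map_of_mem hφ))
    · intro φ hφ
      obtain ⟨ψ, hψ, rfl⟩ := List.mem_map.1 hφ
      rw [Formula.realize_relabel]
      exact (s2 ψ (h1 ψ hψ).1 _ _ fun a ha => hd a (Set.mem_biUnion (by simp [hψ]) ha)).2
        (h1 ψ hψ).2
  refine h.2 I 𝓕 A (fun i => i.1.1) (fun i => i.2) hne (fun i => i.1.2)
    ⟨fun n g x => ?_, fun a b hab => ?_, fun n R x => ?_⟩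
  · have := (key (Term.equal (Term.var (funMap g x)) (Term.func g fun k => Term.var (x k)))
      (BoundedFormula.IsAtomic.equal _ _)).1 (by simp)
    simpa [Function.comp_def] using this
  · have := (key (Term.equal (Term.var a) (Term.var b))
      (BoundedFormula.IsAtomic.equal _ _)).2 (by simpa using hab)
    simpa using this
  · have := key (R.formula fun k => Term.var (x k)) (BoundedFormula.IsAtomic.rel _ _)
    simpa [Function.comp_def] using this

end Pool.Agent.H.MP_7a870e_al
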