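import Pool.Agent.H.MP_7a870e_al.Malcev

set_option autoImplicit false
open FirstOrder FirstOrder.Language FirstOrder.Language.Structure Filter CategoryTheory

namespace Pool.Agent.H.MP_7a870e_al

universe w

inductive TF : ℕ → Type
  | tl : TF 1
  | u : TF 1
  | h : TF 1
  | p : TF 2

inductive TR : ℕ → Type
  | P : TR 1

def τ : FirstOrder.Language.{0, 0} := ⟨TF, TR⟩

instance : Finite τ.Symbols := by
  refine Finite.of_surjective (fun k : Fin 5 => (![Sum.inl ⟨1, TF.tl⟩, Sum.inl ⟨1, TF.u⟩,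
    Sum.inl ⟨1, TF.h⟩, Sum.inl ⟨2, TF.p⟩, Sum.inr ⟨1, TR.P⟩] k : τ.Symbols)) ?_
  rintro (⟨_, _ | _ | _ | _⟩ | ⟨_, ⟨⟩⟩)
  exacts [⟨0, rfl⟩, ⟨1, rfl⟩, ⟨2, rfl⟩, ⟨3, rfl⟩, ⟨4, rfl⟩]

section
variable {C : Type} [τ.Structure C]
def Tl (c : C) : C := funMap (L := τ) TF.tl ![c]
def U (c : C) : C := funMap (L := τ) TF.u ![c]
def H (c : C) : C := funMap (L := τ) TF.h ![c]
def Pp (c c' : C) : C := funMap (L := τ) TF.p ![c, c']
def PP (c : C) : Prop := RelMap (L := τ) TR.P ![c]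
end

lemma comp1 {A B : Type} (f : A → B) (c : A) : f ∘ ![c] = ![f c] := by
  ext k; fin_cases k; rfl
lemma comp2 {A B : Type} (f : A → B) (c c' : A) : f ∘ ![c, c'] = ![f c, f c'] := by
  ext k; fin_cases k <;> rfl
lemma eta1 {A : Type} (x : Fin 1 → A) : x = ![x 0] := by
  ext k; fin_cases k; rfl
lemma eta2 {A : Type} (x : Fin 2 → A) : x = ![x 0, x 1] := by
  ext k; fin_cases k <;> rfl

section
variable {I : Type w} {𝓕 : Filter I} {C : Type} [τ.Structure C]
    {D : I → Type} [∀ i, τ.Structure (D i)] {f : ∀ i, C → D i}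

lemma AE.tl (h : AE τ 𝓕 f) (c : C) : ∀ᶠ i in 𝓕, f i (Tl c) = Tl (f i c) := by
  simpa only [comp1, Tl, U, H, PP] using h.fn _ TF.tl ![c]
lemma AE.u (h : AE τ 𝓕 f) (c : C) : ∀ᶠ i in 𝓕, f i (U c) = U (f i c) := by
  simpa only [comp1, Tl, U, H, PP] using h.fn _ TF.u ![c]
lemma AE.h (h : AE τ 𝓕 f) (c : C) : ∀ᶠ i in 𝓕, f i (H c) = H (f i c) := by
  simpa only [comp1, Tl, U, H, PP] using h.fn _ TF.h ![c]
lemma AE.p (h : AE τ 𝓕 f) (c c' : C) : ∀ᶠ i in 𝓕, f i (Pp c c') = Pp (f i c) (f i c') := by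
  simpa only [comp2, Pp] using h.fn _ TF.p ![c, c']
lemma AE.P (h : AE τ 𝓕 f) (c : C) : PP c ↔ ∀ᶠ i in 𝓕, PP (f i c) := by
  simpa only [comp1, Tl, U, H, PP] using h.rel _ TR.P ![c]

lemma AE.mk' (h1 : ∀ c, ∀ᶠ i in 𝓕, f i (Tl c) = Tl (f i c))
    (h2 : ∀ c, ∀ᶠ i in 𝓕, f i (U c) = U (f i c)) (h3 : ∀ c, ∀ᶠ i in 𝓕, f i (H c) = H (f i c))
    (h4 : ∀ c c', ∀ᶠ i in 𝓕, f i (Pp c c') = Pp (f i c) (f i c'))
    (h5 : ∀ a b, (∀ᶠ i in 𝓕, f i a = f i b) → a = b)
    (h6 : ∀ c, PP c ↔ ∀ᶠ i in 𝓕, PP (f i c)) : AE τ 𝓕 f := by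
  refine ⟨fun n g x => ?_, h5, fun n R x => ?_⟩
  · cases g
    · rw [eta1 x]; simpa only [comp1, Tl, U, H, PP] using h1 _
    · rw [eta1 x]; simpa only [comp1, Tl, U, H, PP] using h2 _
    · rw [eta1 x]; simpa only [comp1, Tl, U, H, PP] using h3 _
    · rw [eta2 x]; simpa only [comp2, Pp] using h4 _ _
  · cases R
    rw [eta1 x]; simpa only [comp1, Tl, U, H, PP] using h6 _
end

variable {N : ℕ}

def push {A : Type} (a : A) (b : Fin (N + 1) → A) : Fin (N + 1) → A := Fin.cons a (Fin.init b)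

lemma push_comp {A B : Type} (f : A → B) (a : A) (b : Fin (N + 1) → A) :
    f ∘ push a b = push (f a) (f ∘ b) := by
  ext k
  refine Fin.cases rfl (fun k => rfl) k

lemma push_shift {A : Type} (a : Fin (N + 1) → A) : push (a 0) (fun k => a (k + 1)) = a := by
  ext k
  refine Fin.cases rfl (fun k => ?_) k
  simp [push, Fin.init]

lemma push_ind {A : Type} (Q : (Fin (N + 1) → A) → Prop) (b0 : Fin (N + 1) → A) (h0 : Q b0)
    (h : ∀ a b, Q b → Q (push a b)) (a : Fin (N + 1) → A) : Q a := by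
  have : ∀ j, j ≤ N + 1 → ∃ b, Q b ∧ ∀ (k l : Fin (N + 1)), k.1 < j → l.1 + j = k.1 + (N + 1) →
      b k = a l := by
    intro j
    induction j with
    | zero => exact fun _ => ⟨b0, h0, fun k l hk => by omega⟩
    | succ j ih =>
      intro hj
      obtain ⟨b, h1, h2⟩ := ih (by omega)
      refine ⟨push (a ⟨N - j, by omega⟩) b, h _ _ h1, fun k => Fin.cases ?_ (fun k => ?_) k⟩
      · intro l _ hl
        exact congrArg a (Fin.ext (by simp at hl ⊢; omega))
      · intro l hk hl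
        exact h2 k.castSucc l (by simp at hk ⊢; omega) (by simp at hl ⊢; omega)
  obtain ⟨b, h1, h2⟩ := this (N + 1) le_rfl
  rwa [← funext fun k => h2 k k k.2 rfl]

structure Over0 {C A : Type} [τ.Structure C] (co : C → Fin (N + 1) → A)
    (tu : ℕ → (Fin (N + 1) → A) → C) (η : C → A) : Prop where
  co_tu : ∀ t a, co (tu t a) = a
  tag : ∀ t t' a b, tu t a = tu t' b → t = t'
  u_tu : ∀ t a, U (tu t a) = tu (t + 1) a
  p_eq : ∀ c c', Pp c c' = tu 0 (push (co c 0) (co c'))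
  tl_eq : ∀ c, Tl c = tu 0 fun k => co c (k + 1)
  h_eq : ∀ c, H c = tu 0 fun _ => η c

section
variable {I : Type w} {𝓕 : Filter I} {C : Type} [τ.Structure C]
    {D : I → Type} [∀ i, τ.Structure (D i)] {f : ∀ i, C → D i} {B : I → Type}
    {co' : ∀ i, D i → Fin (N + 1) → B i} {tu' : ∀ i, ℕ → (Fin (N + 1) → B i) → D i}
    {η' : ∀ i, D i → B i}

lemma lemK (hf : AE τ 𝓕 f) (hD : ∀ i, Over0 (co' i) (tu' i) (η' i)) {A : Type}
    {co : C → Fin (N + 1) → A} {tu : ℕ → (Fin (N + 1) → A) → C} {η : C → A}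
    (hC : Over0 co tu η) : ∃ ι : ∀ i, A → B i,
      (∀ t a, ∀ᶠ i in 𝓕, f i (tu t a) = tu' i t (ι i ∘ a)) ∧
      (∀ c, ∀ᶠ i in 𝓕, η' i (f i c) = ι i (η c)) ∧
      ∀ a b, (∀ᶠ i in 𝓕, ι i a = ι i b) → a = b := by
  set ι : ∀ i, A → B i := fun i a => co' i (f i (tu 0 fun _ => a)) 0 with hι
  have K0 : ∀ c, ∀ᶠ i in 𝓕, co' i (f i c) 0 = ι i (co c 0) := by
    intro c
    have e : Pp c c = Pp (tu 0 fun _ => co c 0) c := by rw [hC.p_eq, hC.p_eq, hC.co_tu]
    filter_upwards [hf.p c c, hf.p (tu 0 fun _ => co c 0) c] with i h1 h2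
    have := congrArg (fun z => co' i z 0) (h1.symm.trans (e ▸ h2))
    simp only [(hD i).p_eq, (hD i).co_tu] at this
    exact this
  have K1 : ∀ k c, ∀ᶠ i in 𝓕, co' i (f i c) k = ι i (co c k) := by
    intro k
    induction k using Fin.induction with
    | zero => exact K0
    | succ k ih =>
      intro c
      filter_upwards [ih (Tl c), hf.tl c] with i h1 h2
      rw [h2, (hD i).tl_eq, (hD i).co_tu, hC.tl_eq, hC.co_tu] at h1
      simpa using h1
  have K2 : ∀ t a, ∀ᶠ i in 𝓕, f i (tu t a) = tu' i t (ι i ∘ a) := by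
    intro t a
    induction t with
    | zero =>
      have e : Pp (tu 0 a) (Tl (tu 0 a)) = tu 0 a := by
        rw [hC.p_eq, hC.tl_eq, hC.co_tu, hC.co_tu, push_shift]
      filter_upwards [hf.p (tu 0 a) (Tl (tu 0 a)), eventually_all.2 fun k => K1 k (tu 0 a)]
        with i h1 h2
      rw [e, (hD i).p_eq] at h1
      have h3 := congrArg (co' i) h1
      rw [(hD i).co_tu] at h3
      rw [h1, ← h3, funext h2, hC.co_tu]
      rfl
    | succ t ih =>
      filter_upwards [ih, hf.u (tu t a)] with i h1 h2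
      rw [← hC.u_tu, h2, h1, (hD i).u_tu]
  refine ⟨ι, K2, fun c => ?_, fun a b h => ?_⟩
  · filter_upwards [K0 (H c), hf.h c] with i h1 h2
    rwa [h2, (hD i).h_eq, (hD i).co_tu, hC.h_eq, hC.co_tu] at h1
  · have : tu 0 (fun _ => a) = tu 0 fun _ => b := hf.inj _ _ (by
      filter_upwards [h, K2 0 fun _ => a, K2 0 fun _ => b] with i h0 h1 h2
      rw [h1, h2]
      exact congrArg _ (funext fun _ => h0))
    have := congrArg (fun z => co z 0) this
    simpa only [hC.co_tu] using this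

lemma lemE [𝓕.NeBot] [Nonempty C] (hf : AE τ 𝓕 f) (hD : ∀ i, Over0 (co' i) (tu' i) (η' i)) :
    ∃ (A : Type) (co : C → Fin (N + 1) → A) (tu : ℕ → (Fin (N + 1) → A) → C) (η : C → A),
      Over0 co tu η := by
  let s : Setoid C := ⟨fun c c' => ∀ᶠ i in 𝓕, co' i (f i c) 0 = co' i (f i c') 0,
    fun _ => Eventually.of_forall fun _ => rfl, fun h => h.mono fun _ h => h.symm,
    fun h h' => (h.and h').mono fun _ h => h.1.trans h.2⟩
  have E1 : ∀ (k : Fin (N + 1)) c, ∃ c', ∀ᶠ i in 𝓕, co' i (f i c') 0 = co' i (f i c) k := by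
    intro k
    induction k using Fin.induction with
    | zero => exact fun c => ⟨c, Eventually.of_forall fun _ => rfl⟩
    | succ k ih =>
      intro c
      obtain ⟨c', h⟩ := ih (Tl c)
      refine ⟨c', ?_⟩
      filter_upwards [h, hf.tl c] with i h1 h2
      rw [h2, (hD i).tl_eq, (hD i).co_tu] at h1
      simpa using h1
  choose cc hcc using E1
  let co : C → Fin (N + 1) → Quotient s := fun c k => ⟦cc k c⟧
  have ce : ∀ c c' k k', co c k = co c' k' ↔ ∀ᶠ i in 𝓕, co' i (f i c) k = co' i (f i c') k' := by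
    intro c c' k k'
    refine Quotient.eq.trans (eventually_congr ?_)
    filter_upwards [hcc k c, hcc k' c'] with i h1 h2
    rw [h1, h2]
  let DD : C → Prop := fun c => ∀ᶠ i in 𝓕, f i c = tu' i 0 (co' i (f i c))
  have uniq : ∀ c c', DD c → DD c' → co c = co c' → c = c' := by
    intro c c' h1 h2 h3
    refine hf.inj _ _ ?_
    filter_upwards [h1, h2, eventually_all.2 fun k => (ce c c' k k).1 (congrFun h3 k)]
      with i h1 h2 h3
    rw [h1, h2, funext h3]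
  have cp : ∀ c c', DD (Pp c c') ∧ co (Pp c c') = push (co c 0) (co c') := by
    intro c c'
    refine ⟨(hf.p c c').mono fun i h => by rw [h, (hD i).p_eq, (hD i).co_tu], funext fun k => ?_⟩
    refine Fin.cases ((ce _ c _ 0).2 ?_) (fun k => (ce _ c' _ k.castSucc).2 ?_) k
    · exact (hf.p c c').mono fun i h => by rw [h, (hD i).p_eq, (hD i).co_tu]; rfl
    · exact (hf.p c c').mono fun i h => by rw [h, (hD i).p_eq, (hD i).co_tu]; rfl
  have sur : ∀ a : Quotient s, ∃ c, co c 0 = a := by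
    rintro ⟨c⟩
    exact ⟨c, Quotient.sound (hcc 0 c)⟩
  have ex : ∀ a : Fin (N + 1) → Quotient s, ∃ c, DD c ∧ co c = a := by
    obtain ⟨c0⟩ := ‹Nonempty C›
    refine push_ind _ _ ⟨_, (cp c0 c0).1, rfl⟩ ?_
    rintro a _ ⟨c', -, rfl⟩
    obtain ⟨c, rfl⟩ := sur a
    exact ⟨_, cp c c'⟩
  choose t0 d0 c0 using ex
  have it : ∀ t a, ∀ᶠ i in 𝓕, f i (U^[t] (t0 a)) = tu' i t (co' i (f i (t0 a))) := by
    intro t a
    induction t with
    | zero => exact d0 a
    | succ t ih =>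
      filter_upwards [ih, hf.u (U^[t] (t0 a))] with i h1 h2
      rw [Function.iterate_succ_apply', h2, h1, (hD i).u_tu]
  refine ⟨_, co, fun t a => U^[t] (t0 a), fun c => co (H c) 0, fun t a => ?_,
    fun t t' a b h => ?_, fun t a => (Function.iterate_succ_apply' _ _ _).symm,
    fun c c' => uniq _ _ (cp c c').1 (d0 _) ((cp c c').2.trans (c0 _).symm),
    fun c => uniq _ _ ?_ (d0 _) ?_, fun c => uniq _ _ ?_ (d0 _) ?_⟩
  · refine Eq.trans (funext fun k => (ce _ _ k k).2 ?_) (c0 a)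
    exact (it t a).mono fun i h => by rw [h, (hD i).co_tu]
  · obtain ⟨i, h1, h2⟩ := ((it t a).and (it t' b)).exists
    exact (hD i).tag _ _ _ _ (h1.symm.trans (h ▸ h2))
  · exact (hf.tl c).mono fun i h => by rw [h, (hD i).tl_eq, (hD i).co_tu]
  · refine Eq.trans (funext fun k => (ce _ _ k (k + 1)).2 ?_) (c0 _).symm
    exact (hf.tl c).mono fun i h => by rw [h, (hD i).tl_eq, (hD i).co_tu]
  · exact (hf.h c).mono fun i h => by rw [h, (hD i).h_eq, (hD i).co_tu]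
  · refine Eq.trans (funext fun k => (ce _ _ k 0).2 ?_) (c0 _).symm
    exact (hf.h c).mono fun i h => by rw [h, (hD i).h_eq, (hD i).co_tu]

end

end Pool.Agent.H.MP_7a870e_al
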